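import Pool.Agent.H853Z.Pde.Final

set_option autoImplicit false

namespace Pool.Agent.Results.MP_9aae89_an.ACounterexample

open MeasureTheory
open scoped ContDiff

/-- In dimension three, for every admissible nonlinearity `f` and all admissible slopes with
`β > 0`, there is a classical solution of `Δ u = f (u)` which is the composition of the two-plane
solution with a homeomorphism and which is not a function of one Euclidean coordinate. -/
theorem result (f : ℝ → ℝ) (hf : ContDiff ℝ ∞ f) (hc : HasCompactSupport f) (_h0 : ∀ t, 0 ≤ f t)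
    (_ha : 0 < ∫ t, f t) (α β : ℝ) (hα : 0 < α) (hβ : 0 < β)
    (_hαβ : α ^ 2 - β ^ 2 = 2 * ∫ t, f t) :
    ∃ (u : EuclideanSpace ℝ (Fin 3) → ℝ)
      (Φ : EuclideanSpace ℝ (Fin 3) ≃ₜ EuclideanSpace ℝ (Fin 3)),
      ContDiff ℝ 2 u ∧ (∀ x, Laplacian.laplacian u x = f (u x)) ∧
      (∀ x, u x = α * max (Φ x 0) 0 - β * max (-Φ x 0) 0) ∧
      ¬ ∃ (R : EuclideanSpace ℝ (Fin 3) ≃ᵃⁱ[ℝ] EuclideanSpace ℝ (Fin 3)) (V : ℝ → ℝ),
        ∀ x, u x = V (R x 0) :=
  Pool.Agent.H853Z.Pde.main f (hf.of_le (by simp)) hc hα hβ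

end Pool.Agent.Results.MP_9aae89_an.ACounterexample
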